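import Pool.Agent.Helper72.TX.Grp

/-!
# Project TX (MP_6090f9_nt): series

These lemmas are copied from `Pool/Agent/Helper78/TN/M_B3.lean`, where they are private.
-/

set_option autoImplicit false

namespace Pool.Agent.Helper72.TX

open Pool.Agent.Helper97.TN Pool.Agent.Helper96.BC Pool.Agent.Helper95.TT
open NumberField IsDedekindDomain Polynomial Filter Topology
open scoped Classical

theorem wt_nonneg {k : Type} [Field k] [NumberField k] (s : ℝ) (v : Pr k) : 0 ≤ wt s v :=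
  mul_nonneg (Real.log_natCast_nonneg _) (Real.rpow_nonneg (Nat.cast_nonneg _) _)

theorem wt_le_one {k : Type} [Field k] [NumberField k] (h2 : ∀ v : Pr k, 2 ≤ q v)
    (s : ℝ) (hs : 1 ≤ s) (v : Pr k) : wt s v ≤ 1 := by
  have hq : (2 : ℝ) ≤ (q v : ℝ) := by exact_mod_cast h2 v
  have h1 : Real.log (q v) ≤ (q v : ℝ) := Real.log_le_self (by linarith)
  have h3 : (q v : ℝ) ^ (-s) ≤ (q v : ℝ) ^ (-1 : ℝ) :=
    Real.rpow_le_rpow_of_exponent_le (by linarith) (by linarith)
  have h4 : (0 : ℝ) ≤ (q v : ℝ) ^ (-s) := Real.rpow_nonneg (by linarith) _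
  calc wt s v = Real.log (q v) * (q v : ℝ) ^ (-s) := rfl
    _ ≤ (q v : ℝ) * (q v : ℝ) ^ (-1 : ℝ) :=
        mul_le_mul h1 h3 h4 (by linarith)
    _ = 1 := by
        rw [Real.rpow_neg_one]
        exact mul_inv_cancel₀ (by linarith)

theorem term_eq {k : Type} [Field k] [NumberField k] (h2 : ∀ v : Pr k, 2 ≤ q v)
    (R : Set (Pr k)) (b : Pr k → ℝ) (s : ℝ) :
    (fun v : Pr k => if v ∈ R then (0 : ℝ) else b v * Real.log (q v) * (q v : ℝ) ^ (-s)) =
      fun v => (if v ∈ R then (0 : ℝ) else b v / q v) * wt (s - 1) v := by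
  funext v
  by_cases h : v ∈ R
  · simp [h]
  · have hq : (2 : ℝ) ≤ (q v : ℝ) := by exact_mod_cast h2 v
    have e : (q v : ℝ) ^ (-(s - 1)) = (q v : ℝ) ^ (-s) * q v := by
      have : -(s - 1) = -s + 1 := by ring
      rw [this, Real.rpow_add (by linarith), Real.rpow_one]
    simp only [h, if_false]
    unfold wt
    rw [e]
    field_simp

theorem sumb {k : Type} [Field k] [NumberField k] (hA2 : StA2) (f : Pr k → ℝ) (A : ℝ)
    (hf : ∀ v, |f v| ≤ A) (s : ℝ) (hs : 1 < s) : Summable (fun v => f v * wt s v) := by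
  refine Summable.of_norm_bounded (g := fun v => A * wt s v) (((hA2 k).1 s hs).mul_left A) ?_
  intro v
  rw [Real.norm_eq_abs, abs_mul, abs_of_nonneg (wt_nonneg s v)]
  exact mul_le_mul_of_nonneg_right (hf v) (wt_nonneg s v)

theorem sumb_le {k : Type} [Field k] [NumberField k] (hA2 : StA2) (f : Pr k → ℝ) (A : ℝ)
    (hf : ∀ v, |f v| ≤ A) (s : ℝ) (hs : 1 < s) :
    |∑' v : Pr k, f v * wt s v| ≤ A * ∑' v : Pr k, wt s v := by
  have h1 := sumb hA2 f A hf s hs
  have h0 := (hA2 k).1 s hs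
  rw [abs_le, ← tsum_mul_left, ← tsum_neg]
  constructor
  · refine Summable.tsum_le_tsum (fun v => ?_) (h0.mul_left A).neg h1
    have := (abs_le.1 (hf v)).1
    nlinarith [wt_nonneg s v]
  · refine Summable.tsum_le_tsum (fun v => ?_) h1 (h0.mul_left A)
    have := (abs_le.1 (hf v)).2
    nlinarith [wt_nonneg s v]

/-- bounded, and `O(1/q)` outside a finite set -/
theorem near_bd {k : Type} [Field k] [NumberField k] (hA2 : StA2) (h2 : ∀ v : Pr k, 2 ≤ q v)
    (f : Pr k → ℝ) (A : ℝ) (hA : 0 ≤ A) (hf : ∀ v, |f v| ≤ A) (Z : Set (Pr k)) (hZ : Z.Finite)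
    (hz : ∀ v, v ∉ Z → |f v| ≤ A / q v) : ∃ M : ℝ, ∀ s : ℝ, 1 < s → |∑' v, f v * wt s v| ≤ M := by
  have sZ : Summable (fun v : Pr k => if v ∈ Z then A else 0) := by
    refine summable_of_ne_finset_zero (s := hZ.toFinset) fun v hv => ?_
    rw [Set.Finite.mem_toFinset] at hv
    rw [if_neg hv]
  have s2 : Summable (fun v : Pr k => A * wt 2 v) := ((hA2 k).1 2 (by norm_num)).mul_left A
  refine ⟨∑' v : Pr k, (A * wt 2 v + if v ∈ Z then A else 0), fun s hs => ?_⟩
  have hb : ∀ v : Pr k, |f v * wt s v| ≤ A * wt 2 v + if v ∈ Z then A else 0 := by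
    intro v
    rw [abs_mul, abs_of_nonneg (wt_nonneg s v)]
    have hw2 := wt_nonneg 2 v
    have hws := wt_nonneg s v
    by_cases hv : v ∈ Z
    · rw [if_pos hv]
      have h1 := wt_le_one h2 s hs.le v
      have h3 : |f v| * wt s v ≤ A * 1 := mul_le_mul (hf v) h1 hws hA
      nlinarith
    · rw [if_neg hv, add_zero]
      have hq : (2 : ℝ) ≤ (q v : ℝ) := by exact_mod_cast h2 v
      have h3 : wt s v / q v ≤ wt 2 v := by
        unfold wt
        rw [mul_div_assoc]
        refine mul_le_mul_of_nonneg_left ?_ (Real.log_natCast_nonneg _)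
        rw [div_le_iff₀ (by linarith)]
        have e : (q v : ℝ) ^ (-2 : ℝ) * q v = (q v : ℝ) ^ (-1 : ℝ) := by
          have : (-1 : ℝ) = -2 + 1 := by norm_num
          rw [this, Real.rpow_add (by linarith), Real.rpow_one]
        rw [e]
        exact Real.rpow_le_rpow_of_exponent_le (by linarith) (by linarith)
      calc |f v| * wt s v ≤ A / q v * wt s v := mul_le_mul_of_nonneg_right (hz v hv) hws
        _ = A * (wt s v / q v) := by ring
        _ ≤ A * wt 2 v := mul_le_mul_of_nonneg_left h3 hA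
  have h5 : Summable (fun v : Pr k => f v * wt s v) := sumb hA2 f A hf s hs
  have h6 := s2.add sZ
  rw [abs_le, ← tsum_neg]
  constructor
  · refine Summable.tsum_le_tsum (fun v => ?_) h6.neg h5
    exact (abs_le.1 (hb v)).1
  · refine Summable.tsum_le_tsum (fun v => ?_) h5 h6
    exact (abs_le.1 (hb v)).2

theorem mul_bdd_tendsto (g : ℝ → ℝ) (M : ℝ) (hg : ∀ s : ℝ, 1 < s → |g s| ≤ M) :
    Tendsto (fun s : ℝ => (s - 1) * g s) (𝓝[>] 1) (𝓝 0) := by
  have h1 : Tendsto (fun s : ℝ => (s - 1) * M) (𝓝[>] 1) (𝓝 0) := by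
    have : Tendsto (fun s : ℝ => (s - 1) * M) (𝓝 1) (𝓝 ((1 - 1) * M)) :=
      (Continuous.tendsto (by fun_prop) 1)
    rw [sub_self, zero_mul] at this
    exact this.mono_left nhdsWithin_le_nhds
  refine squeeze_zero_norm' ?_ h1
  filter_upwards [self_mem_nhdsWithin] with s hs
  have hs' : (1 : ℝ) < s := hs
  rw [Real.norm_eq_abs, abs_mul, abs_of_pos (by linarith : (0 : ℝ) < s - 1)]
  exact mul_le_mul_of_nonneg_left (hg s hs') (by linarith)

theorem shift_tend : Tendsto (fun s : ℝ => s - 1) (𝓝[>] 2) (𝓝[>] 1) := by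
  refine tendsto_nhdsWithin_iff.2 ⟨?_, ?_⟩
  · have : Tendsto (fun s : ℝ => s - 1) (𝓝 2) (𝓝 (2 - 1)) :=
      (continuous_id.sub continuous_const).tendsto 2
    rw [show (2 : ℝ) - 1 = 1 by norm_num] at this
    exact this.mono_left nhdsWithin_le_nhds
  · filter_upwards [self_mem_nhdsWithin] with s hs
    have : (2 : ℝ) < s := hs
    show (1 : ℝ) < s - 1
    linarith

end Pool.Agent.Helper72.TX
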