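import Pool.Agent.Helper72.TX.Loc
import Pool.Agent.Helper72.TX.Ser

/-!
# Project TX (MP_6090f9_nt): the inequality for a fixed Galois extension

Proof: as `Pool/Agent/Helper78/TN/M_B3.lean`.  The functions `v ↦ th (r i) (σ v)` are orthogonal for the weight
`(s-1) wt s v · fxK k M (σ v)`, of total mass `1` in the limit, with the norms `[M : k] U_i`, `1 ≤ U_i ≤ u`.
-/

set_option autoImplicit false

namespace Pool.Agent.Helper72.TX

open Pool.Agent.Helper97.TN Pool.Agent.Helper96.BC Pool.Agent.Helper95.TT Pool.Agent.Helper72.TN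
open NumberField IsDedekindDomain Polynomial Filter Topology
open scoped Classical

theorem asm (hA2 : StA2) (hG3 : StG3) (hP6 : StP6) (hQ2 : StQ2) (hC1 : StC1) (hC2 : StC2)
    (hB0 : StB0) (k : Type) [Field k] [NumberField k] (A : Pr k → ℝ) (B C : ℝ)
    (R₀ : Set (Pr k)) (hR₀ : R₀.Finite) (hA : ∀ v, v ∉ R₀ → |A v| ≤ B * q v)
    (L : Type) [Field L] [NumberField L] [Algebra k L] [IsGalois k L]
    (M : Type) [Field M] [NumberField M] [Algebra k M] [IsGalois k M]
    (ι : Type) [Fintype ι] (K : ι → Type) [∀ i, Field (K i)] [∀ i, NumberField (K i)]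
    [∀ i, Algebra k (K i)] [∀ i, Algebra (K i) L] [∀ i, IsScalarTower k (K i) L]
    (j : ∀ i, M →ₐ[k] K i) (E : ∀ i, 𝓞 (K i)) (hE : ∀ i, E i ≠ 0)
    (r : ∀ i, (K i →ₐ[k] L) → L) (hr : ∀ i x, r i x ^ 2 = x (E i : K i))
    (hne : ∀ i i', i ≠ i' → ∀ (x : K i →ₐ[k] L) (y : K i' →ₐ[k] L),
      ¬ Rel (E i : K i) (E i' : K i') x y)
    (u : ℕ) (hu : ∀ i (x : K i →ₐ[k] L),
      Nat.card {y : K i →ₐ[k] L // Rel (E i : K i) (E i : K i) x y} ≤ u)
    (bp bK : ∀ i, Pr (K i) → ℝ) (R : ∀ i, Set (Pr (K i))) (hR : ∀ i, (R i).Finite)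
    (h0 : ∀ i w, w ∉ R i → |bp i w| ≤ C * q w) (h1 : ∀ i w, w ∉ R i → |bK i w| ≤ C * q w)
    (h2 : ∀ i w v, w ∉ R i → Deg1 w v → |bK i w - bp i w - chi (E i) w * A v| ≤ C) :
    (∀ i, ∀ s : ℝ, 2 < s → Summable (fun w : Pr (K i) =>
      if w ∈ R i then 0 else bp i w * Real.log (q w) * (q w : ℝ) ^ (-s))) ∧
    (∀ i, ∀ s : ℝ, 2 < s → Summable (fun w : Pr (K i) =>
      if w ∈ R i then 0 else bK i w * Real.log (q w) * (q w : ℝ) ^ (-s))) ∧
    ∀ ε > 0, ∀ᶠ s : ℝ in 𝓝[>] 2,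
      ∑ i, ((s - 2) * FK (R i) (bK i) s - (s - 2) * FK (R i) (bp i) s) ^ 2 ≤
        u * B ^ 2 / Module.finrank k M + ε := by
  have q2 : ∀ v : Pr k, 2 ≤ q v := (hC1 k k).2.2.2
  have q2K : ∀ i, ∀ v : Pr (K i), 2 ≤ q v := fun i => (hC1 (K i) (K i)).2.2.2
  obtain ⟨hAs, hAt⟩ := hA2 k
  obtain ⟨σ, hσ⟩ := hB0 k L
  have hqpos : ∀ v : Pr k, (0 : ℝ) < q v := fun v => by
    have : (2 : ℝ) ≤ (q v : ℝ) := by exact_mod_cast q2 v
    linarith
  have hqposK : ∀ i, ∀ v : Pr (K i), (0 : ℝ) < q v := fun i v => by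
    have : (2 : ℝ) ≤ (q v : ℝ) := by exact_mod_cast q2K i v
    linarith
  have hfdM : FiniteDimensional k M := Module.Finite.of_restrictScalars_finite ℚ k M
  have hN0 : 0 < Module.finrank k M := Module.finrank_pos
  obtain ⟨N, hN⟩ : ∃ N : ℝ, N = (Module.finrank k M : ℝ) := ⟨_, rfl⟩
  have hN0' : 0 < N := by rw [hN]; exact_mod_cast hN0
  have hE' : ∀ i, (E i : K i) ≠ 0 := fun i h => hE i (RingOfIntegers.ext h)
  -- the functions
  obtain ⟨βp, hβp⟩ : ∃ β : ∀ i, Pr (K i) → ℝ, ∀ i w, β i w = if w ∈ R i then (0 : ℝ) else bp i w / q w :=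
    ⟨fun i w => if w ∈ R i then (0 : ℝ) else bp i w / q w, fun _ _ => rfl⟩
  obtain ⟨βK, hβK⟩ : ∃ β : ∀ i, Pr (K i) → ℝ, ∀ i w, β i w = if w ∈ R i then (0 : ℝ) else bK i w / q w :=
    ⟨fun i w => if w ∈ R i then (0 : ℝ) else bK i w / q w, fun _ _ => rfl⟩
  obtain ⟨μ, hμ⟩ : ∃ μ : Pr k → ℝ, ∀ v, μ v = if v ∈ R₀ then (0 : ℝ) else A v / q v :=
    ⟨_, fun _ => rfl⟩
  have hμb : ∀ v, |μ v| ≤ |B| := by
    intro v
    rw [hμ]
    split_ifs with h
    · rw [abs_zero]; exact abs_nonneg _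
    · have h1 := hA v h
      rw [abs_div, abs_of_pos (hqpos v), div_le_iff₀ (hqpos v)]
      exact h1.trans (mul_le_mul_of_nonneg_right (le_abs_self B) (hqpos v).le)
  have hβpb : ∀ i w, |βp i w| ≤ |C| := by
    intro i w
    rw [hβp]
    split_ifs with h
    · rw [abs_zero]; exact abs_nonneg _
    · rw [abs_div, abs_of_pos (hqposK i w), div_le_iff₀ (hqposK i w)]
      exact (h0 i w h).trans (mul_le_mul_of_nonneg_right (le_abs_self C) (hqposK i w).le)
  have hβKb : ∀ i w, |βK i w| ≤ |C| := by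
    intro i w
    rw [hβK]
    split_ifs with h
    · rw [abs_zero]; exact abs_nonneg _
    · rw [abs_div, abs_of_pos (hqposK i w), div_le_iff₀ (hqposK i w)]
      exact (h1 i w h).trans (mul_le_mul_of_nonneg_right (le_abs_self C) (hqposK i w).le)
  obtain ⟨β, hβ⟩ : ∃ β : ∀ i, Pr (K i) → ℝ, ∀ i w, β i w = βK i w - βp i w :=
    ⟨fun i w => βK i w - βp i w, fun _ _ => rfl⟩
  have hβb : ∀ i w, |β i w| ≤ |C| + |C| := by
    intro i w
    rw [hβ]
    exact (abs_sub _ _).trans (add_le_add (hβKb i w) (hβpb i w))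
  have htermp : ∀ i s, (fun w : Pr (K i) => if w ∈ R i then (0 : ℝ) else
      bp i w * Real.log (q w) * (q w : ℝ) ^ (-s)) = fun w => βp i w * wt (s - 1) w := by
    intro i s
    rw [term_eq (q2K i)]
    funext w
    rw [hβp]
  have htermK : ∀ i s, (fun w : Pr (K i) => if w ∈ R i then (0 : ℝ) else
      bK i w * Real.log (q w) * (q w : ℝ) ^ (-s)) = fun w => βK i w * wt (s - 1) w := by
    intro i s
    rw [term_eq (q2K i)]
    funext w
    rw [hβK]
  have sp : ∀ i, ∀ s : ℝ, 1 < s → Summable (fun w : Pr (K i) => βp i w * wt s w) :=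
    fun i s hs => sumb hA2 (βp i) _ (hβpb i) s hs
  have sK : ∀ i, ∀ s : ℝ, 1 < s → Summable (fun w : Pr (K i) => βK i w * wt s w) :=
    fun i s hs => sumb hA2 (βK i) _ (hβKb i) s hs
  refine ⟨?_, ?_, ?_⟩
  · intro i s hs
    rw [htermp]
    exact sp i (s - 1) (by linarith)
  · intro i s hs
    rw [htermK]
    exact sK i (s - 1) (by linarith)
  intro ε hε
  rcases isEmpty_or_nonempty ι with hι | ⟨⟨i0⟩⟩
  · refine Filter.Eventually.of_forall fun s => ?_
    rw [Finset.univ_eq_empty, Finset.sum_empty]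
    positivity
  -- the group functions
  obtain ⟨φ, hφ⟩ : ∃ φ : ι → (L ≃ₐ[k] L) → ℝ, ∀ i, φ i = fun g => th (r i) g :=
    ⟨fun i g => th (r i) g, fun _ => rfl⟩
  have x0 : ∀ i, K i →ₐ[k] L := fun i => IsScalarTower.toAlgHom k (K i) L
  have hDφ : ∀ i, Div (φ i) := fun i => by rw [hφ]; exact div_th (hr i)
  obtain ⟨hMa, hMd⟩ := avg_fxK (L := L) hG3 ((x0 i0).comp (j i0))
  have hsupp : ∀ i g, fxK k M g * φ i g = N * φ i g := by
    intro i g
    rw [hφ, hN]
    exact th_supp (j i) (r i) g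
  obtain ⟨U, hU⟩ : ∃ U : ι → ℝ, ∀ i, U i = avg (fun g => φ i g * φ i g) := ⟨_, fun _ => rfl⟩
  have hU1 : ∀ i, 1 ≤ U i ∧ U i ≤ u := by
    intro i
    rw [hU, hφ]
    exact avg_th_sq hG3 (hE' i) (hr i) (x0 i) u (hu i)
  have havU : ∀ i j, avg (fun g => φ i g * φ j g) = if i = j then U i else 0 := by
    intro i j
    split_ifs with h
    · subst h
      rw [hU]
    · rw [hφ, hφ]
      exact avg_th_zero (hE' i) (hE' j) (hr i) (hr j) (hne i j h)
  choose Tf hTf0 hTf using fun i => bdd (φ i)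
  obtain ⟨T', hT'0, hT'⟩ : ∃ T' : ℝ, 0 ≤ T' ∧ ∀ i, Tf i ≤ T' := by
    refine ⟨∑ i, Tf i, Finset.sum_nonneg fun i _ => hTf0 i, fun i => ?_⟩
    exact Finset.single_le_sum (f := Tf) (fun i _ => hTf0 i) (Finset.mem_univ i)
  have hφb : ∀ i (v : Pr k), |φ i (σ v)| ≤ T' := fun i v => (hTf i _).trans (hT' i)
  obtain ⟨TM, hTM0, hTM⟩ := bdd (fun g : L ≃ₐ[k] L => fxK k M g)
  have hfx0 : ∀ g : L ≃ₐ[k] L, 0 ≤ fxK k M g := fun g => Nat.cast_nonneg _
  -- comparison with the sum over k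
  have hcmp : ∀ i, ∃ M' : ℝ, ∀ s : ℝ, 1 < s →
      |∑' w : Pr (K i), β i w * wt s w - ∑' v : Pr k, (μ v * φ i (σ v)) * wt s v| ≤ M' := by
    intro i
    obtain ⟨hS, hsum, M1, hM1⟩ := hC2 k (K i) (β i) (|C| + |C|) (hβb i)
    obtain ⟨R1, hR1, hR1'⟩ := S1_chi (L := L) (k := k) (E i) (hE i) (r i) (hr i)
    obtain ⟨Z, hZ⟩ : ∃ Z : Set (Pr k), Z = (R₀ ∪ {v | ∃ w ∈ R i, Above w v}) ∪ R1 := ⟨_, rfl⟩
    have hZf : Z.Finite := by
      rw [hZ]
      refine (hR₀.union ?_).union hR1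
      have : {v : Pr k | ∃ w ∈ R i, Above w v} ⊆ ⋃ w ∈ R i, {v | Above w v} := by
        intro v hv
        obtain ⟨w, hw, hwv⟩ := hv
        simp only [Set.mem_iUnion]
        exact ⟨w, hw, hwv⟩
      refine Set.Finite.subset (Set.Finite.biUnion (hR i) ?_) this
      intro w _
      obtain ⟨v0, _, hu⟩ := (hC1 k (K i)).1 w
      refine (Set.finite_singleton v0).subset ?_
      intro v hv
      exact hu v hv
    obtain ⟨n, hn⟩ : ∃ n : ℝ, n = (Module.finrank k (K i) : ℝ) := ⟨_, rfl⟩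
    have hn0 : 0 ≤ n := by rw [hn]; exact Nat.cast_nonneg _
    have hNn : ∀ v : Pr k, (N1 (K i) v : ℝ) ≤ n := by
      intro v
      rw [hn]
      exact_mod_cast (hS v).2
    have hfin1 : ∀ v : Pr k, Finite {w : Pr (K i) // Deg1 w v} := by
      intro v
      have := ((hC1 k (K i)).2.2.1 v).1
      have h3 : {w : Pr (K i) | Deg1 w v}.Finite := this.subset (fun w hw => hw.1)
      exact h3
    have hgood : ∀ v, v ∉ Z → |S1 (β i) v - μ v * φ i (σ v)| ≤ n * |C| / q v := by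
      intro v hv
      have hv1 : v ∉ R₀ := fun h => hv (by rw [hZ]; exact Or.inl (Or.inl h))
      have hv2 : ∀ w, Above w v → w ∉ R i := fun w hw h =>
        hv (by rw [hZ]; exact Or.inl (Or.inr ⟨w, h, hw⟩))
      have hv3 : v ∉ R1 := fun h => hv (by rw [hZ]; exact Or.inr h)
      have hS1 := hR1' v hv3 (σ v) (hσ v)
      have := hfin1 v
      have := Fintype.ofFinite {w : Pr (K i) // Deg1 w v}
      have hφS : φ i (σ v) = ∑ w : {w : Pr (K i) // Deg1 w v}, chi (E i) w.1 := by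
        rw [hφ]
        show th (r i) (σ v) = _
        rw [← hS1]
        unfold S1
        rw [finsum_eq_sum_of_fintype]
      have e : S1 (β i) v - μ v * φ i (σ v) =
          ∑ w : {w : Pr (K i) // Deg1 w v}, (β i w.1 - μ v * chi (E i) w.1) := by
        rw [Finset.sum_sub_distrib, ← Finset.mul_sum, hφS]
        unfold S1
        rw [finsum_eq_sum_of_fintype]
      rw [e]
      refine (Finset.abs_sum_le_sum_abs _ _).trans ?_
      have h5 : ∀ w ∈ (Finset.univ : Finset {w : Pr (K i) // Deg1 w v}),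
          |β i w.1 - μ v * chi (E i) w.1| ≤ |C| / q v := by
        intro w _
        have hw := hv2 w.1 w.2.1
        rw [hβ, hβK, hβp, hμ, if_neg hw, if_neg hw, if_neg hv1, w.2.2]
        have e2 : bK i w.1 / (q v : ℝ) - bp i w.1 / (q v : ℝ) - A v / (q v : ℝ) * chi (E i) w.1 =
            (bK i w.1 - bp i w.1 - chi (E i) w.1 * A v) / q v := by ring
        rw [e2, abs_div, abs_of_pos (hqpos v)]
        exact div_le_div_of_nonneg_right ((h2 i w.1 v hw w.2).trans (le_abs_self C)) (hqpos v).le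
      refine (Finset.sum_le_sum h5).trans ?_
      rw [Finset.sum_const, nsmul_eq_mul, Finset.card_univ, ← Nat.card_eq_fintype_card, mul_div_assoc]
      refine mul_le_mul_of_nonneg_right (hNn v) (div_nonneg (abs_nonneg _) (hqpos v).le)
    obtain ⟨A', hA'⟩ : ∃ A' : ℝ, A' = (|C| + |C|) * n + |B| * T' := ⟨_, rfl⟩
    have hmb : ∀ v, |μ v * φ i (σ v)| ≤ |B| * T' := fun v => by
      rw [abs_mul]
      exact mul_le_mul (hμb v) (hφb i v) (abs_nonneg _) (abs_nonneg _)
    have hbd : ∀ v, |S1 (β i) v - μ v * φ i (σ v)| ≤ A' := by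
      intro v
      have g1 : |S1 (β i) v| ≤ (|C| + |C|) * n :=
        ((hS v).1).trans (mul_le_mul_of_nonneg_left (hNn v) (by positivity))
      rw [hA']
      exact (abs_sub _ _).trans (add_le_add g1 (hmb v))
    have hA'0 : 0 ≤ A' := by
      rw [hA']
      positivity
    obtain ⟨M2, hM2⟩ := near_bd hA2 q2 _ A' hA'0 hbd Z hZf (fun v hv => by
      refine (hgood v hv).trans (div_le_div_of_nonneg_right ?_ (hqpos v).le)
      rw [hA']
      have h9 : 0 ≤ |B| * T' := by positivity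
      have h10 : 0 ≤ |C| * n := by positivity
      nlinarith)
    refine ⟨M1 + M2, fun s hs => ?_⟩
    have hs1 : Summable (fun v : Pr k => S1 (β i) v * wt s v) := (hsum s hs).2
    have hs2 : Summable (fun v : Pr k => (μ v * φ i (σ v)) * wt s v) :=
      sumb hA2 (fun v => μ v * φ i (σ v)) _ hmb s hs
    have e : ∑' v : Pr k, (S1 (β i) v - μ v * φ i (σ v)) * wt s v =
        ∑' v : Pr k, S1 (β i) v * wt s v - ∑' v : Pr k, (μ v * φ i (σ v)) * wt s v := by
      rw [← hs1.tsum_sub hs2]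
      congr 1
      funext v
      ring
    have h5 := hM1 s hs
    have h6 := hM2 s hs
    rw [e] at h6
    have := abs_add_le (∑' w : Pr (K i), β i w * wt s w - ∑' v : Pr k, S1 (β i) v * wt s v)
      (∑' v : Pr k, S1 (β i) v * wt s v - ∑' v : Pr k, (μ v * φ i (σ v)) * wt s v)
    rw [sub_add_sub_cancel] at this
    linarith
  -- limits
  have hP : ∀ ψ : (L ≃ₐ[k] L) → ℝ, Div ψ →
      Tendsto (fun s : ℝ => (s - 1) * ∑' v : Pr k, ψ (σ v) * wt s v) (𝓝[>] 1) (𝓝 (avg ψ)) :=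
    fun ψ hψ => hP6 k L σ ∅ Set.finite_empty (fun v _ => hσ v) ψ hψ
  -- the functions y_i
  obtain ⟨y, hy⟩ : ∃ y : ι → ℝ → ℝ, ∀ i t, y i t =
      (t - 1) * ∑' v : Pr k, (μ v * φ i (σ v)) * wt t v := ⟨_, fun _ _ => rfl⟩
  have hyb : ∀ i (v : Pr k), |μ v * φ i (σ v)| ≤ |B| * T' := by
    intro i v
    rw [abs_mul]
    exact mul_le_mul (hμb v) (hφb i v) (abs_nonneg _) (abs_nonneg _)
  have hBess := hQ2 (Pr k) ι (fun t v => (t - 1) * (fxK k M (σ v) * wt t v)) μ
    (fun i v => φ i (σ v)) (fun i => N * U i) |B| T'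
    (by
      filter_upwards [self_mem_nhdsWithin] with t ht
      have ht' : (1 : ℝ) < t := ht
      refine ⟨fun v => mul_nonneg (by linarith) (mul_nonneg (hfx0 _) (wt_nonneg t v)), ?_⟩
      exact (sumb hA2 (fun v => fxK k M (σ v)) TM (fun v => hTM _) t ht').mul_left _)
    (by
      have h3 := hP (fun g => fxK k M g) hMd
      rw [hMa] at h3
      refine h3.congr fun t => ?_
      rw [tsum_mul_left])
    hμb hφb
    (by
      intro i j
      have h3 := (hP (fun g => φ i g * φ j g) (div_mul _ _ (hDφ i) (hDφ j))).const_mul N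
      rw [havU] at h3
      have e3 : N * (if i = j then U i else 0) = if i = j then N * U i else 0 := by
        split_ifs <;> ring
      rw [e3] at h3
      refine h3.congr fun t => ?_
      rw [← tsum_mul_left, ← tsum_mul_left]
      refine tsum_congr fun v => ?_
      have h4 := hsupp i (σ v)
      linear_combination (-(t - 1) * wt t v * φ j (σ v)) * h4)
  have hyB : ∀ i, ∀ᶠ t : ℝ in 𝓝[>] 1, |y i t| ≤ (|B| * T') * 2 := by
    intro i
    have h1 := hAt.eventually_le_const (show (1 : ℝ) < 2 by norm_num)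
    filter_upwards [h1, self_mem_nhdsWithin] with t ht1 ht
    have ht' : (1 : ℝ) < t := ht
    rw [hy, abs_mul, abs_of_pos (by linarith : (0 : ℝ) < t - 1)]
    have h3 := sumb_le hA2 (fun v => μ v * φ i (σ v)) (|B| * T') (hyb i) t ht
    have h0 : 0 ≤ |B| * T' := mul_nonneg (abs_nonneg _) hT'0
    calc (t - 1) * |∑' v : Pr k, (μ v * φ i (σ v)) * wt t v|
        ≤ (t - 1) * (|B| * T' * ∑' v : Pr k, wt t v) :=
          mul_le_mul_of_nonneg_left h3 (by linarith)
      _ = (|B| * T') * ((t - 1) * ∑' v : Pr k, wt t v) := by ring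
      _ ≤ (|B| * T') * 2 := mul_le_mul_of_nonneg_left ht1 h0
  -- the differences
  obtain ⟨Df, hDf⟩ : ∃ Df : ι → ℝ → ℝ, ∀ i s, Df i s = (s - 1) * ∑' w : Pr (K i), β i w * wt s w :=
    ⟨_, fun _ _ => rfl⟩
  have hdiff : ∀ i, Tendsto (fun s => Df i s - y i s) (𝓝[>] 1) (𝓝 0) := by
    intro i
    obtain ⟨M1, hM1⟩ := hcmp i
    refine (mul_bdd_tendsto _ M1 hM1).congr fun s => ?_
    rw [hDf, hy]
    ring
  have hu0 : (0 : ℝ) ≤ u := Nat.cast_nonneg _
  have hBess2 := hBess (ε / 2 * (N / (u + 1))) (by positivity)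
  -- the error term
  have hEr : Tendsto (fun s => ∑ i, (2 * y i s * (Df i s - y i s) + (Df i s - y i s) ^ 2))
      (𝓝[>] 1) (𝓝 (∑ i : ι, (0 : ℝ))) := by
    refine tendsto_finsetSum _ fun i _ => ?_
    have h3 : Tendsto (fun s => 2 * y i s * (Df i s - y i s)) (𝓝[>] 1) (𝓝 0) := by
      refine squeeze_zero_norm' (a := fun s => (2 * ((|B| * T') * 2)) * |Df i s - y i s|) ?_ ?_
      · filter_upwards [hyB i] with s hs
        rw [Real.norm_eq_abs, abs_mul, abs_mul, abs_two]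
        refine mul_le_mul_of_nonneg_right ?_ (abs_nonneg _)
        exact mul_le_mul_of_nonneg_left hs (by norm_num)
      · have := ((hdiff i).abs).const_mul (2 * ((|B| * T') * 2))
        simpa using this
    have h4 := h3.add ((hdiff i).pow 2)
    simpa using h4
  rw [Finset.sum_const_zero] at hEr
  have hE2 := hEr.eventually_le_const (show (0 : ℝ) < ε / 2 by linarith)
  have hmain : ∀ᶠ s : ℝ in 𝓝[>] 1, ∑ i, (Df i s) ^ 2 ≤ u * B ^ 2 / Module.finrank k M + ε := by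
    filter_upwards [hBess2, hE2] with s g1 g2
    have e6 : ∀ i, (∑' v : Pr k, (s - 1) * (fxK k M (σ v) * wt s v) * (μ v * φ i (σ v))) =
        N * y i s := by
      intro i
      rw [hy, ← tsum_mul_left, ← tsum_mul_left]
      refine tsum_congr fun v => ?_
      have h4 := hsupp i (σ v)
      linear_combination ((s - 1) * wt s v * μ v) * h4
    simp only [e6, sq_abs] at g1
    have g3 : ∑ i, (y i s) ^ 2 ≤ u / N * ∑ i, (N * y i s) ^ 2 / (N * U i) := by
      rw [Finset.mul_sum]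
      refine Finset.sum_le_sum fun i _ => ?_
      have hUi := hU1 i
      have hUp : 0 < U i := by linarith [hUi.1]
      have e7 : u / N * ((N * y i s) ^ 2 / (N * U i)) = u * y i s ^ 2 / U i := by
        field_simp
      rw [e7, le_div_iff₀ hUp]
      nlinarith [sq_nonneg (y i s), hUi.2]
    have g4 : u / N * ∑ i, (N * y i s) ^ 2 / (N * U i) ≤
        u / N * (B ^ 2 + ε / 2 * (N / (u + 1))) :=
      mul_le_mul_of_nonneg_left g1 (by positivity)
    have g5 : u / N * (B ^ 2 + ε / 2 * (N / (u + 1))) ≤ u * B ^ 2 / N + ε / 2 := by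
      have e8 : u / N * (B ^ 2 + ε / 2 * (N / (u + 1))) =
          u * B ^ 2 / N + ε / 2 * (u / (u + 1)) := by
        field_simp
      rw [e8]
      have h9 : (u : ℝ) / (u + 1) ≤ 1 := by
        rw [div_le_one (by positivity)]
        linarith
      have h10 : ε / 2 * ((u : ℝ) / (u + 1)) ≤ ε / 2 * 1 :=
        mul_le_mul_of_nonneg_left h9 (by linarith)
      linarith
    have e7 : ∑ i, (Df i s) ^ 2 = ∑ i, y i s ^ 2 +
        ∑ i, (2 * y i s * (Df i s - y i s) + (Df i s - y i s) ^ 2) := by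
      rw [← Finset.sum_add_distrib]
      refine Finset.sum_congr rfl fun i _ => ?_
      ring
    rw [e7, ← hN]
    linarith
  filter_upwards [shift_tend.eventually hmain, self_mem_nhdsWithin] with s hs hs2
  have hs2' : (2 : ℝ) < s := hs2
  refine le_trans (le_of_eq ?_) hs
  refine Finset.sum_congr rfl (fun i _ => ?_)
  have e9 : FK (R i) (bK i) s - FK (R i) (bp i) s = ∑' w : Pr (K i), β i w * wt (s - 1) w := by
    unfold FK
    rw [htermp, htermK, ← (sK i (s - 1) (by linarith)).tsum_sub (sp i (s - 1) (by linarith))]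
    refine tsum_congr fun w => ?_
    rw [hβ]
    ring
  rw [hDf, ← e9]
  congr 1
  ring

end Pool.Agent.Helper72.TX
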