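import Pool.Agent.Helper72.TX.Ser
import Pool.Agent.Helper97.TN.All
import Pool.Agent.Helper96.SE.All

/-!
# Project TX (MP_6090f9_nt): products of superelliptic curves
-/

set_option autoImplicit false

namespace Pool.Agent.Helper72.TX

open Pool.Agent.Helper97.TN Pool.Agent.Helper96.BC Pool.Agent.Helper95.TT
open Pool.Agent.Helper24.TF Pool.Agent.Helper96.SE
open NumberField IsDedekindDomain Polynomial Filter Topology
open scoped Classical

noncomputable section

variable {k : Type} [Field k] [NumberField k] {m : ℕ}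

/-- the average of the product of the traces on `H¹` over the fibres for which both curves are smooth of full degree -/
def avT (n : ℕ) (f g : (Py k m)[X]) (v : Pr k) : ℝ :=
  (∑ᶠ y : Fin m → Kv v, if ((f.map (val v y)).natDegree = f.natDegree ∧ Squarefree (f.map (val v y))) ∧
      (g.map (val v y)).natDegree = g.natDegree ∧ Squarefree (g.map (val v y)) then
    (tN 2 (f.map (val v y)) : ℝ) * tN n (g.map (val v y)) else 0) / (q v : ℝ) ^ m

theorem finite_Kv (v : Pr k) : Finite (Kv v) := by
  apply (Ideal.absNorm_ne_zero_iff _).mp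
  intro h0
  exact v.ne_bot (Ideal.absNorm_eq_zero_iff.mp h0)

theorem card_Kv (v : Pr k) : Nat.card (Kv v) = q v := (Submodule.cardQuot_apply v.asIdeal).symm

/-- Weil's bound for one curve -/
theorem tN_le (n : ℕ) (hn : n.Prime) (v : Pr k) (h : (Kv v)[X]) (hd : 1 ≤ h.natDegree)
    (hs : Squarefree h) : |(tN n h : ℝ)| ≤ gg n h.natDegree * √(q v) := by
  have hM : v.asIdeal.IsMaximal := v.isMaximal
  letI : Field (Kv v) := Ideal.Quotient.field v.asIdeal
  have := finite_Kv v
  letI : Fintype (Kv v) := Fintype.ofFinite _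
  have h1 := (pE8 (Kv v) n h hn hd hs).2.2 1 one_ne_zero
  rw [map_one, one_mul, ← Nat.card_eq_fintype_card, card_Kv] at h1
  exact h1

theorem avT_le (n : ℕ) (hn : n.Prime) (f g : (Py k m)[X]) (hf : 1 ≤ f.natDegree)
    (hg : 1 ≤ g.natDegree) (v : Pr k) :
    |avT n f g v| ≤ ((gg 2 f.natDegree : ℝ) * gg n g.natDegree) * q v := by
  have := finite_Kv v
  have : Fintype (Kv v) := Fintype.ofFinite _
  have hq : (0 : ℝ) < q v := by
    have h0 : q v ≠ 0 := fun h => v.ne_bot (Ideal.absNorm_eq_zero_iff.mp h)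
    exact_mod_cast Nat.pos_of_ne_zero h0
  unfold avT
  rw [abs_div, abs_of_pos (by positivity : (0 : ℝ) < (q v : ℝ) ^ m), div_le_iff₀ (by positivity),
    finsum_eq_sum_of_fintype]
  refine (Finset.abs_sum_le_sum_abs _ _).trans ?_
  have h1 : ∀ y ∈ (Finset.univ : Finset (Fin m → Kv v)),
      |(if ((f.map (val v y)).natDegree = f.natDegree ∧ Squarefree (f.map (val v y))) ∧
      (g.map (val v y)).natDegree = g.natDegree ∧ Squarefree (g.map (val v y)) then
    (tN 2 (f.map (val v y)) : ℝ) * tN n (g.map (val v y)) else 0)| ≤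
      ((gg 2 f.natDegree : ℝ) * gg n g.natDegree) * q v := by
    intro y _
    split_ifs with h
    · have h2 := tN_le 2 Nat.prime_two v (f.map (val v y)) (by rw [h.1.1]; exact hf) h.1.2
      have h3 := tN_le n hn v (g.map (val v y)) (by rw [h.2.1]; exact hg) h.2.2
      rw [h.1.1] at h2
      rw [h.2.1] at h3
      rw [abs_mul]
      refine (mul_le_mul h2 h3 (abs_nonneg _) (by positivity)).trans (le_of_eq ?_)
      have h4 : √(q v : ℝ) * √(q v : ℝ) = q v := Real.mul_self_sqrt hq.le
      calc _ = ((gg 2 f.natDegree : ℝ) * gg n g.natDegree) * (√(q v : ℝ) * √(q v : ℝ)) := by ring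
        _ = _ := by rw [h4]
    · rw [abs_zero]
      positivity
  refine (Finset.sum_le_sum h1).trans (le_of_eq ?_)
  rw [Finset.sum_const, Finset.card_univ, nsmul_eq_mul, ← Nat.card_eq_fintype_card, Nat.card_fun,
    Nat.card_eq_fintype_card (α := Fin m), Fintype.card_fin, card_Kv]
  push_cast
  ring

/-- the residue of `∑ 2 q_v log q_v q_v^(-s)` is `2` -/
theorem res_two (k : Type) [Field k] [NumberField k] :
    Tendsto (fun s : ℝ => (s - 2) * FS (fun v : Pr k => 2 * (q v : ℝ)) s) (𝓝[>] 2) (𝓝 2) := by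
  have q2 : ∀ v : Pr k, 2 ≤ q v := Pool.Agent.Helper72.TN.two_le_q
  have e : ∀ s : ℝ, FS (fun v : Pr k => 2 * (q v : ℝ)) s = 2 * ∑' v : Pr k, wt (s - 1) v := by
    intro s
    have h := term_eq q2 (∅ : Set (Pr k)) (fun v : Pr k => 2 * (q v : ℝ)) s
    simp only [Set.mem_empty_iff_false, if_false] at h
    unfold FS
    rw [h, ← tsum_mul_left]
    refine tsum_congr fun v => ?_
    have hq : (q v : ℝ) ≠ 0 := by
      have := q2 v
      positivity
    rw [mul_div_assoc, div_self hq, mul_one]
  have h1 := ((tA2 k).2.comp shift_tend).const_mul 2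
  rw [mul_one] at h1
  refine h1.congr fun s => ?_
  rw [e]
  show 2 * ((s - 1 - 1) * ∑' v : Pr k, wt (s - 1) v) = _
  ring

end

end Pool.Agent.Helper72.TX
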