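import Pool.Agent.Helper72.TX.Asm
import Pool.Agent.Helper97.TN.FinB

/-!
# Project TX (MP_6090f9_nt): from a fixed Galois extension to number fields
-/

set_option autoImplicit false

namespace Pool.Agent.Helper72.TX

open Pool.Agent.Helper97.TN Pool.Agent.Helper96.BC Pool.Agent.Helper95.TT Pool.Agent.Helper72.TN
open NumberField IsDedekindDomain Polynomial Filter Topology
open scoped Classical

/-- the product of the images of `E`, `E'` in `k̄` is a square in the compositum of the images of the fields -/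
def LinkT {k K K' : Type} [Field k] [Field K] [NumberField K] [Field K'] [NumberField K'] [Algebra k K]
    [Algebra k K'] (E : 𝓞 K) (E' : 𝓞 K') (x : K →ₐ[k] AlgebraicClosure k)
    (y : K' →ₐ[k] AlgebraicClosure k) : Prop :=
  ∃ z ∈ x.fieldRange ⊔ y.fieldRange, z ^ 2 = x (E : K) * y (E' : K')

/-- linked in `L` implies linked in `k̄` -/
theorem link_of_rel {k K K' L : Type} [Field k] [NumberField k] [Field K] [NumberField K] [Field K']
    [NumberField K'] [Field L] [NumberField L] [Algebra k K] [Algebra k K'] [Algebra k L]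
    (j : L →ₐ[k] AlgebraicClosure k) (E : 𝓞 K) (E' : 𝓞 K') (x : K →ₐ[k] L) (y : K' →ₐ[k] L)
    (h : Rel (E : K) (E' : K') x y) : LinkT E E' (j.comp x) (j.comp y) := by
  obtain ⟨z, hz, hz2⟩ := h
  refine ⟨j z, ?_, ?_⟩
  · have h1 : j z ∈ (x.fieldRange ⊔ y.fieldRange).map j := ⟨z, hz, rfl⟩
    rw [IntermediateField.map_sup, AlgHom.map_fieldRange, AlgHom.map_fieldRange] at h1
    exact h1
  · rw [← map_pow, hz2, map_mul]
    rfl

/-- a Galois extension which contains given fields and square roots of the conjugates of given elements -/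
theorem exists_L (k : Type) [Field k] [NumberField k] (ι : Type) [Finite ι] (K : ι → Type)
    [∀ i, Field (K i)] [∀ i, NumberField (K i)] [∀ i, Algebra k (K i)] (E : ∀ i, 𝓞 (K i)) :
    ∃ (L : Type) (_ : Field L) (_ : NumberField L) (_ : Algebra k L) (_ : IsGalois k L)
      (_ : ∀ i, Algebra (K i) L) (_ : ∀ i, IsScalarTower k (K i) L)
      (r : ∀ i, (K i →ₐ[k] L) → L), ∀ i x, r i x ^ 2 = x (E i : K i) := by
  have hx0 : ∀ i, ∃ x : K i →ₐ[k] AlgebraicClosure k, True := fun i => ⟨IsAlgClosed.lift, trivial⟩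
  choose x0 _ using hx0
  have hρ : ∀ i, ∃ ρ : AlgebraicClosure k, ρ ^ 2 = x0 i (E i : K i) := fun i =>
    IsAlgClosed.exists_pow_nat_eq (x0 i (E i : K i)) two_pos
  choose ρ hρ using hρ
  let F : ι → IntermediateField k (AlgebraicClosure k) := fun i =>
    (x0 i).fieldRange ⊔ IntermediateField.adjoin k {ρ i}
  have hF : ∀ i, FiniteDimensional k (F i) := by
    intro i
    have h1 : FiniteDimensional k (x0 i).fieldRange := by
      have : FiniteDimensional k (K i) := Module.Finite.of_restrictScalars_finite ℚ k (K i)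
      exact LinearEquiv.finiteDimensional (AlgEquiv.ofInjectiveField (x0 i)).toLinearEquiv
    have h2 : FiniteDimensional k (IntermediateField.adjoin k {ρ i}) :=
      IntermediateField.adjoin.finiteDimensional (Algebra.IsIntegral.isIntegral (ρ i))
    exact IntermediateField.finiteDimensional_sup _ _
  have hN : ∀ i, NumberField (F i) := fun i => NumberField.of_module_finite k (F i)
  obtain ⟨L, iF, iN, iA, iG, iAF, iTF, -⟩ := Pool.Agent.Helper40.TN.hR5 k ι (fun i => F i)
  have hle : ∀ i (z : K i), x0 i z ∈ F i := fun i z =>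
    (le_sup_left : (x0 i).fieldRange ≤ F i) ⟨z, rfl⟩
  let xi : ∀ i, K i →ₐ[k] F i := fun i => (x0 i).codRestrict (F i).toSubalgebra (hle i)
  let yi : ∀ i, K i →ₐ[k] L := fun i => (IsScalarTower.toAlgHom k (F i) L).comp (xi i)
  let al : ∀ i, Algebra (K i) L := fun i => (yi i).toRingHom.toAlgebra
  have hroot : ∀ i, ∃ t : L, t ^ 2 = yi i (E i : K i) := by
    intro i
    have hm : ρ i ∈ F i := (le_sup_right : IntermediateField.adjoin k {ρ i} ≤ F i)
      (IntermediateField.mem_adjoin_simple_self k (ρ i))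
    refine ⟨algebraMap (F i) L ⟨ρ i, hm⟩, ?_⟩
    have e : (⟨ρ i, hm⟩ : F i) ^ 2 = xi i (E i : K i) := Subtype.ext (hρ i)
    rw [← map_pow, e]
    rfl
  have hroot2 : ∀ i (x : K i →ₐ[k] L), ∃ t : L, t ^ 2 = x (E i : K i) := by
    intro i x
    obtain ⟨t, ht⟩ := hroot i
    obtain ⟨g, hg⟩ := trans_emb (yi i) x
    refine ⟨g t, ?_⟩
    rw [← map_pow, ht, ← hg]
    rfl
  choose r hr using hroot2
  exact ⟨L, iF, iN, iA, iG, al, fun i => IsScalarTower.of_algebraMap_eq fun z =>
    ((yi i).commutes z).symm, r, hr⟩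

/-- the finite form of the theorem -/
theorem finite_formT (k : Type) [Field k] [NumberField k] (A : Pr k → ℝ) (B C : ℝ)
    (R₀ : Set (Pr k)) (hR₀ : R₀.Finite) (hA : ∀ v, v ∉ R₀ → |A v| ≤ B * q v)
    (M : Type) [Field M] [NumberField M] [Algebra k M] [IsGalois k M]
    (ι : Type) [Fintype ι] (K : ι → Type) [∀ i, Field (K i)] [∀ i, NumberField (K i)]
    [∀ i, Algebra k (K i)] (j : ∀ i, M →ₐ[k] K i) (E : ∀ i, 𝓞 (K i)) (hE : ∀ i, E i ≠ 0)
    (hne : ∀ i i', i ≠ i' → ∀ (x : K i →ₐ[k] AlgebraicClosure k)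
      (y : K i' →ₐ[k] AlgebraicClosure k), ¬ LinkT (E i) (E i') x y)
    (u : ℕ) (hu : ∀ i (x : K i →ₐ[k] AlgebraicClosure k),
      Nat.card {y : K i →ₐ[k] AlgebraicClosure k // LinkT (E i) (E i) x y} ≤ u)
    (bp bK : ∀ i, Pr (K i) → ℝ) (R : ∀ i, Set (Pr (K i))) (hR : ∀ i, (R i).Finite)
    (h0 : ∀ i w, w ∉ R i → |bp i w| ≤ C * q w) (h1 : ∀ i w, w ∉ R i → |bK i w| ≤ C * q w)
    (h2 : ∀ i w v, w ∉ R i → Deg1 w v → |bK i w - bp i w - chi (E i) w * A v| ≤ C) :
    (∀ i, ∀ s : ℝ, 2 < s →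
      Summable (fun w : Pr (K i) => bp i w * Real.log (q w) * (q w : ℝ) ^ (-s))) ∧
    (∀ i, ∀ s : ℝ, 2 < s →
      Summable (fun w : Pr (K i) => bK i w * Real.log (q w) * (q w : ℝ) ^ (-s))) ∧
    ∀ ε > 0, ∀ᶠ s : ℝ in 𝓝[>] 2,
      ∑ i, ((s - 2) * FS (bK i) s - (s - 2) * FS (bp i) s) ^ 2 ≤
        u * B ^ 2 / Module.finrank k M + ε := by
  obtain ⟨L, iF, iN, iA, iG, iAK, iT, r, hr⟩ := exists_L k ι K E
  let jL : L →ₐ[k] AlgebraicClosure k := IsAlgClosed.lift
  have hfin : ∀ i, Finite (K i →ₐ[k] AlgebraicClosure k) := by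
    intro i
    have : FiniteDimensional k (K i) := Module.Finite.of_restrictScalars_finite ℚ k (K i)
    infer_instance
  obtain ⟨hsp, hsK, hmain⟩ := asm tA2 tG3 tP6 hQ2 tC1 tC2 tB0 k A B C R₀ hR₀ hA L M ι K j E hE r hr
    (fun i i' hii x y h => hne i i' hii _ _ (link_of_rel jL (E i) (E i') x y h)) u
    (fun i x => by
      have := hfin i
      refine le_trans ?_ (hu i (jL.comp x))
      refine Nat.card_le_card_of_injective
        (fun y : {y : K i →ₐ[k] L // Rel (E i : K i) (E i : K i) x y} =>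
          (⟨jL.comp y.1, link_of_rel jL (E i) (E i) x y.1 y.2⟩ :
            {y : K i →ₐ[k] AlgebraicClosure k // LinkT (E i) (E i) (jL.comp x) y})) ?_
      intro y y' h
      apply Subtype.ext
      apply AlgHom.ext
      intro z
      apply jL.injective
      exact DFunLike.congr_fun (congrArg Subtype.val h) z) bp bK R hR h0 h1 h2
  have hSp := fun i => remove_fin (bp i) (R i) (hR i) (hsp i)
  have hSK := fun i => remove_fin (bK i) (R i) (hR i) (hsK i)
  refine ⟨fun i => (hSp i).1, fun i => (hSK i).1, ?_⟩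
  refine close_sq Finset.univ (fun i s => (s - 2) * FK (R i) (bK i) s - (s - 2) * FK (R i) (bp i) s) _
    _ _ hmain fun i _ => ?_
  have h3 := (hSK i).2.sub (hSp i).2
  rw [sub_zero] at h3
  refine h3.congr fun s => ?_
  ring

end Pool.Agent.Helper72.TX
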