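import Pool.Agent.Helper72.TN.M_R4

/-!
# Project TX (MP_6090f9_nt): quadratic twists over all extension fields, group theory

`K/k` a finite extension, `E ∈ K`, `L/k` a finite Galois extension which contains a square root `r x` of every conjugate
`x E` (`x` an embedding of `K` into `L`).  `th r g` is the sum over the embeddings fixed by `g` of the signs `g (r x) / r x`, the
character of the representation induced by the quadratic character of `E`.
-/

set_option autoImplicit false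

namespace Pool.Agent.Helper72.TX

open Pool.Agent.Helper97.TN Pool.Agent.Helper96.BC Pool.Agent.Helper95.TT Pool.Agent.Helper72.TN
open NumberField IsDedekindDomain Polynomial Filter Topology
open scoped Classical

noncomputable section

/-! ## Averages -/

section grp

variable {G : Type} [Group G] [Finite G]

theorem avg_eq [Fintype G] (φ : G → ℝ) : avg φ = (∑ g, φ g) / (Nat.card G : ℕ) := by
  unfold avg
  rw [finsum_eq_sum_of_fintype]

theorem card_pos' : (0 : ℝ) < (Nat.card G : ℕ) := by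
  have := Nat.card_pos (α := G)
  exact_mod_cast this

theorem avg_sub (φ ψ : G → ℝ) : avg (fun g => φ g - ψ g) = avg φ - avg ψ := by
  have := Fintype.ofFinite G
  rw [avg_eq, avg_eq, avg_eq, Finset.sum_sub_distrib, sub_div]

theorem avg_smul (a : ℝ) (φ : G → ℝ) : avg (fun g => a * φ g) = a * avg φ := by
  have := Fintype.ofFinite G
  rw [avg_eq, avg_eq, ← Finset.mul_sum, mul_div_assoc]

theorem bdd (φ : G → ℝ) : ∃ T : ℝ, 0 ≤ T ∧ ∀ g, |φ g| ≤ T := by
  have := Fintype.ofFinite G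
  refine ⟨∑ g, |φ g|, Finset.sum_nonneg fun _ _ => abs_nonneg _, fun g => ?_⟩
  exact Finset.single_le_sum (f := fun g => |φ g|) (fun _ _ => abs_nonneg _) (Finset.mem_univ g)

theorem div_mul {G : Type} [Group G] (φ ψ : G → ℝ) (h : Div φ) (h' : Div ψ) :
    Div (fun g => φ g * ψ g) := fun g x n hn => by
  show φ (x * g ^ n * x⁻¹) * ψ (x * g ^ n * x⁻¹) = φ g * ψ g
  rw [h g x n hn, h' g x n hn]

theorem div_sub {G : Type} [Group G] (φ ψ : G → ℝ) (h : Div φ) (h' : Div ψ) :
    Div (fun g => φ g - ψ g) := fun g x n hn => by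
  show φ (x * g ^ n * x⁻¹) - ψ (x * g ^ n * x⁻¹) = φ g - ψ g
  rw [h g x n hn, h' g x n hn]

/-- a sign character on a subgroup has the sum `0` or is trivial -/
theorem sum_sign [Fintype G] (H : Subgroup G) (ψ : G → ℝ)
    (hm : ∀ g ∈ H, ∀ h ∈ H, ψ (g * h) = ψ g * ψ h) (h1 : ∀ g ∈ H, ψ g = 1 ∨ ψ g = -1) :
    (∑ g : G, if g ∈ H then ψ g else 0) = if ∀ h ∈ H, ψ h = 1 then (Nat.card H : ℝ) else 0 := by
  split_ifs with hc
  · rw [← Finset.sum_filter]
    rw [Finset.sum_congr rfl (g := fun _ => (1 : ℝ))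
      (fun g hg => hc g (Finset.mem_filter.1 hg).2)]
    rw [Finset.sum_const, nsmul_eq_mul, mul_one]
    congr 1
    exact (Nat.subtype_card (Finset.univ.filter fun g => g ∈ H) (fun g => by simp)).symm
  · push Not at hc
    obtain ⟨h, hh, hne⟩ := hc
    have hm1 : ψ h = -1 := (h1 h hh).resolve_left hne
    have e : (∑ g : G, if g ∈ H then ψ g else 0) = ∑ g : G, if g * h ∈ H then ψ (g * h) else 0 :=
      (Equiv.sum_comp (Equiv.mulRight h) fun g : G => if g ∈ H then ψ g else 0).symm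
    have e2 : (∑ g : G, if g * h ∈ H then ψ (g * h) else 0) =
        - ∑ g : G, if g ∈ H then ψ g else 0 := by
      rw [← Finset.sum_neg_distrib]
      refine Finset.sum_congr rfl fun g _ => ?_
      have hiff : g * h ∈ H ↔ g ∈ H := Subgroup.mul_mem_cancel_right H hh
      by_cases hg : g ∈ H
      · rw [if_pos (hiff.2 hg), if_pos hg, hm g hg h hh, hm1]
        ring
      · rw [if_neg (fun h' => hg (hiff.1 h')), if_neg hg, neg_zero]
    rw [e2] at e
    linarith

theorem burnside (X : Type) [Finite X] [MulAction G X] (hne : Nonempty X)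
    (htr : ∀ x y : X, ∃ g : G, g • x = y) : avg (fun g : G => fx X g) = 1 := by
  have := Fintype.ofFinite G
  have := Fintype.ofFinite X
  have := Fintype.ofFinite (Quotient (MulAction.orbitRel G X))
  have h1 := MulAction.sum_card_fixedBy_eq_card_orbits_mul_card_group G X
  have h2 : Fintype.card (Quotient (MulAction.orbitRel G X)) = 1 := by
    rw [Fintype.card_eq_one_iff]
    obtain ⟨x⟩ := hne
    refine ⟨Quotient.mk _ x, fun y => ?_⟩
    induction y using Quotient.inductionOn with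
    | _ y =>
      apply Quotient.sound
      obtain ⟨g, hg⟩ := htr x y
      exact ⟨g, hg⟩
  rw [h2, one_mul] at h1
  unfold avg
  rw [finsum_eq_sum_of_fintype, Nat.card_eq_fintype_card, ← h1]
  have h3 : ∀ g : G, fx X g = ((Fintype.card (MulAction.fixedBy X g) : ℕ) : ℝ) := by
    intro g
    unfold fx
    rw [← Nat.card_eq_fintype_card]
    rfl
  rw [Finset.sum_congr rfl fun g _ => h3 g, ← Nat.cast_sum]
  rw [div_self]
  rw [h1]
  have := Fintype.card_pos (α := G)
  positivity

end grp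

/-! ## Embeddings -/

section emb

variable {k K K' L : Type} [Field k] [NumberField k] [Field K] [NumberField K] [Field K']
  [NumberField K'] [Field L] [NumberField L] [Algebra k K] [Algebra k K'] [Algebra k L]

theorem gg_apply (g : L ≃ₐ[k] L) (x : K →ₐ[k] L) (z : K) : gg g x z = g (x z) := rfl

theorem gg_mul (g h : L ≃ₐ[k] L) (x : K →ₐ[k] L) : gg (g * h) x = gg g (gg h x) := rfl

theorem gg_one (x : K →ₐ[k] L) : gg (1 : L ≃ₐ[k] L) x = x := rfl

/-- the action of the Galois group on the embeddings -/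
@[instance_reducible]
def act (k K L : Type) [Field k] [NumberField k] [Field K] [NumberField K] [Field L] [NumberField L]
    [Algebra k K] [Algebra k L] : MulAction (L ≃ₐ[k] L) (K →ₐ[k] L) where
  smul g x := gg g x
  one_smul x := rfl
  mul_smul g h x := rfl

theorem act_fx (g : L ≃ₐ[k] L) :
    @fx (L ≃ₐ[k] L) _ (K →ₐ[k] L) (act k K L) g = fxK k K g := by
  unfold fx fxK
  congr 1
  refine Nat.card_congr (Equiv.subtypeEquivRight fun x => ?_)
  constructor
  · intro h y
    exact congrArg (fun z : K →ₐ[k] L => z y) h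
  · intro h
    exact AlgHom.ext h

theorem trans_emb [Normal k L] (x x' : K →ₐ[k] L) : ∃ g : L ≃ₐ[k] L, gg g x = x' := by
  let e1 : K ≃ₐ[k] x.fieldRange := AlgEquiv.ofInjectiveField x
  let e2 : K ≃ₐ[k] x'.fieldRange := AlgEquiv.ofInjectiveField x'
  let φ : x.fieldRange →ₐ[k] x'.fieldRange :=
    (e2 : K →ₐ[k] x'.fieldRange).comp (e1.symm : x.fieldRange →ₐ[k] K)
  have h : ∀ z : K, (φ.liftNormal L) (x z) = x' z := by
    intro z
    have h1 := AlgHom.liftNormal_commutes φ L (e1 z)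
    have h2 : φ (e1 z) = e2 z := by
      show e2 (e1.symm (e1 z)) = e2 z
      rw [AlgEquiv.symm_apply_apply]
    rw [h2] at h1
    exact h1
  exact ⟨AlgEquiv.ofBijective (φ.liftNormal L) (Algebra.IsAlgebraic.algHom_bijective _),
    AlgHom.ext h⟩

theorem avg_fxK (hG3 : StG3) [IsGalois k L] (x0 : K →ₐ[k] L) :
    avg (fun g : L ≃ₐ[k] L => fxK k K g) = 1 ∧ Div (fun g : L ≃ₐ[k] L => fxK k K g) := by
  letI := act k K L
  have e : (fun g : L ≃ₐ[k] L => fx (K →ₐ[k] L) g) = fun g => fxK k K g :=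
    funext fun g => act_fx g
  constructor
  · have h := burnside (G := L ≃ₐ[k] L) (K →ₐ[k] L) ⟨x0⟩ (fun x y => trans_emb x y)
    rw [e] at h
    exact h
  · have : Fintype (K →ₐ[k] L) := Fintype.ofFinite _
    have h := (hG3 (L ≃ₐ[k] L)).1 (K →ₐ[k] L)
    rw [e] at h
    exact h

/-- an element fixed by the automorphisms fixing two embeddings is in the compositum of their images -/
theorem mem_of_fixed [IsGalois k L] (x : K →ₐ[k] L) (y : K' →ₐ[k] L) (z : L)
    (h : ∀ g : L ≃ₐ[k] L, gg g x = x → gg g y = y → g z = z) :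
    z ∈ x.fieldRange ⊔ y.fieldRange := by
  rw [← IsGalois.fixedField_fixingSubgroup (x.fieldRange ⊔ y.fieldRange)]
  rw [IntermediateField.mem_fixedField_iff]
  intro g hg
  rw [IntermediateField.mem_fixingSubgroup_iff] at hg
  apply h g
  · apply AlgHom.ext
    intro a
    rw [gg_apply]
    exact hg _ ((le_sup_left : x.fieldRange ≤ x.fieldRange ⊔ y.fieldRange) ⟨a, rfl⟩)
  · apply AlgHom.ext
    intro a
    rw [gg_apply]
    exact hg _ ((le_sup_right : y.fieldRange ≤ x.fieldRange ⊔ y.fieldRange) ⟨a, rfl⟩)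

/-! ## The signs -/

/-- the sign of `g` on the square root `r x` -/
def sg (r : (K →ₐ[k] L) → L) (g : L ≃ₐ[k] L) (x : K →ₐ[k] L) : ℝ := if g (r x) = r x then 1 else -1

/-- the character of the induced representation -/
def th (r : (K →ₐ[k] L) → L) (g : L ≃ₐ[k] L) : ℝ :=
  ∑ᶠ x : K →ₐ[k] L, if gg g x = x then sg r g x else 0

theorem sg_or (r : (K →ₐ[k] L) → L) (g : L ≃ₐ[k] L) (x : K →ₐ[k] L) : sg r g x = 1 ∨ sg r g x = -1 := by
  unfold sg
  split_ifs <;> simp

theorem sq_or {E : K} {r : (K →ₐ[k] L) → L} (hr : ∀ x, r x ^ 2 = x E) {g : L ≃ₐ[k] L}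
    {x : K →ₐ[k] L} (hx : gg g x = x) : g (r x) = r x ∨ g (r x) = - r x := by
  apply sq_eq_sq_iff_eq_or_eq_neg.1
  rw [← map_pow, hr]
  exact congrArg (fun y : K →ₐ[k] L => y E) hx

theorem r_ne {E : K} (hE : E ≠ 0) {r : (K →ₐ[k] L) → L} (hr : ∀ x, r x ^ 2 = x E)
    (x : K →ₐ[k] L) : r x ≠ 0 := by
  intro h
  have h1 := hr x
  rw [h, zero_pow two_ne_zero] at h1
  exact hE ((map_eq_zero x).1 h1.symm)

theorem ne_neg' {a : L} (ha : a ≠ 0) : -a ≠ a := by
  intro h
  have h1 : (2 : L) * a = 0 := by linear_combination -h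
  rcases mul_eq_zero.1 h1 with h2 | h2
  · exact two_ne_zero h2
  · exact ha h2

theorem sg_mul {E : K} (hE : E ≠ 0) {r : (K →ₐ[k] L) → L} (hr : ∀ x, r x ^ 2 = x E)
    {g h : L ≃ₐ[k] L} {x : K →ₐ[k] L} (hg : gg g x = x) (hh : gg h x = x) :
    sg r (g * h) x = sg r g x * sg r h x := by
  have h0 := r_ne hE hr x
  have hn : - r x ≠ r x := ne_neg' h0
  have e : (g * h) (r x) = g (h (r x)) := rfl
  unfold sg
  rw [e]
  rcases sq_or hr hg with h1 | h1 <;> rcases sq_or hr hh with h2 | h2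
  · rw [h2, h1]; simp
  · rw [h2, map_neg, h1, if_neg hn, if_pos rfl]; simp
  · rw [h2, h1, if_neg hn]; simp
  · rw [h2, map_neg, h1, if_neg hn, neg_neg]; simp

theorem sg_eq_one {r : (K →ₐ[k] L) → L} {g : L ≃ₐ[k] L} {x : K →ₐ[k] L} :
    sg r g x = 1 ↔ g (r x) = r x := by
  unfold sg
  split_ifs with h
  · simp [h]
  · simp only [h, iff_false]
    norm_num

/-- the automorphisms fixing two embeddings -/
def stab2 (x : K →ₐ[k] L) (y : K' →ₐ[k] L) : Subgroup (L ≃ₐ[k] L) where
  carrier := {g | gg g x = x ∧ gg g y = y}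
  one_mem' := ⟨rfl, rfl⟩
  mul_mem' := by
    intro g h hg hh
    refine ⟨?_, ?_⟩
    · rw [gg_mul, hh.1, hg.1]
    · rw [gg_mul, hh.2, hg.2]
  inv_mem' := by
    intro g hg
    refine ⟨?_, ?_⟩
    · have h1 : gg g⁻¹ (gg g x) = x := by rw [← gg_mul, inv_mul_cancel]; rfl
      rw [hg.1] at h1
      exact h1
    · have h1 : gg g⁻¹ (gg g y) = y := by rw [← gg_mul, inv_mul_cancel]; rfl
      rw [hg.2] at h1
      exact h1

theorem mem_stab2 {x : K →ₐ[k] L} {y : K' →ₐ[k] L} {g : L ≃ₐ[k] L} :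
    g ∈ stab2 x y ↔ gg g x = x ∧ gg g y = y := Iff.rfl

/-- the product of the values of two elements is a square in the compositum -/
def Rel (E : K) (E' : K') (x : K →ₐ[k] L) (y : K' →ₐ[k] L) : Prop :=
  ∃ z ∈ x.fieldRange ⊔ y.fieldRange, z ^ 2 = x E * y E'

theorem sum_pair [IsGalois k L] [Fintype (L ≃ₐ[k] L)] {E : K} {E' : K'} (hE : E ≠ 0) (hE' : E' ≠ 0)
    {r : (K →ₐ[k] L) → L} (hr : ∀ x, r x ^ 2 = x E) {r' : (K' →ₐ[k] L) → L}
    (hr' : ∀ x, r' x ^ 2 = x E') (x : K →ₐ[k] L) (y : K' →ₐ[k] L) :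
    (∑ g : L ≃ₐ[k] L, if gg g x = x ∧ gg g y = y then sg r g x * sg r' g y else 0) =
      if ∀ g ∈ stab2 x y, sg r g x * sg r' g y = 1 then (Nat.card (stab2 x y) : ℝ) else 0 := by
  have h := sum_sign (stab2 x y) (fun g => sg r g x * sg r' g y) (by
    intro g hg h hh
    show sg r (g * h) x * sg r' (g * h) y = _
    rw [sg_mul hE hr hg.1 hh.1, sg_mul hE' hr' hg.2 hh.2]
    ring) (by
    intro g _
    show sg r g x * sg r' g y = 1 ∨ sg r g x * sg r' g y = -1
    rcases sg_or r g x with h1 | h1 <;> rcases sg_or r' g y with h2 | h2 <;> rw [h1, h2] <;> norm_num)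
  have e : (∑ g : L ≃ₐ[k] L, if gg g x = x ∧ gg g y = y then sg r g x * sg r' g y else 0) =
      ∑ g : L ≃ₐ[k] L, if g ∈ stab2 x y then sg r g x * sg r' g y else 0 := by
    refine Finset.sum_congr rfl fun g _ => ?_
    by_cases hg : g ∈ stab2 x y
    · rw [if_pos hg, if_pos (mem_stab2.1 hg)]
    · rw [if_neg hg, if_neg (fun h => hg (mem_stab2.2 h))]
  rw [e, h]

/-- if the signs agree on the stabilizer then the product is a square -/
theorem rel_of_trivial [IsGalois k L] {E : K} {E' : K'} (hE' : E' ≠ 0)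
    {r : (K →ₐ[k] L) → L} (hr : ∀ x, r x ^ 2 = x E) {r' : (K' →ₐ[k] L) → L}
    (hr' : ∀ x, r' x ^ 2 = x E') {x : K →ₐ[k] L} {y : K' →ₐ[k] L}
    (h : ∀ g ∈ stab2 x y, sg r g x * sg r' g y = 1) : Rel E E' x y := by
  refine ⟨r x * r' y, mem_of_fixed x y _ (fun g hx hy => ?_), by rw [mul_pow, hr, hr']⟩
  have h1 := h g ⟨hx, hy⟩
  rw [map_mul]
  rcases sg_or r g x with h2 | h2
  · rw [h2, one_mul] at h1
    rw [sg_eq_one.1 h2, sg_eq_one.1 h1]
  · have h3 : sg r' g y = -1 := by rw [h2] at h1; linarith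
    have h4 : g (r x) = - r x := by
      rcases sq_or hr hx with h5 | h5
      · rw [sg_eq_one.2 h5] at h2
        norm_num at h2
      · exact h5
    have h5 : g (r' y) = - r' y := by
      rcases sq_or hr' hy with h6 | h6
      · rw [sg_eq_one.2 h6] at h3
        norm_num at h3
      · exact h6
    rw [h4, h5, neg_mul_neg]

theorem avg_th_mul [IsGalois k L] [Fintype (L ≃ₐ[k] L)] [Fintype (K →ₐ[k] L)] [Fintype (K' →ₐ[k] L)]
    (r : (K →ₐ[k] L) → L) (r' : (K' →ₐ[k] L) → L) :
    avg (fun g : L ≃ₐ[k] L => th r g * th r' g) = (∑ x : K →ₐ[k] L, ∑ y : K' →ₐ[k] L,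
      ∑ g : L ≃ₐ[k] L, if gg g x = x ∧ gg g y = y then sg r g x * sg r' g y else 0) /
      (Nat.card (L ≃ₐ[k] L) : ℕ) := by
  rw [avg_eq]
  congr 1
  have e : ∀ g : L ≃ₐ[k] L, th r g * th r' g = ∑ x : K →ₐ[k] L, ∑ y : K' →ₐ[k] L,
      if gg g x = x ∧ gg g y = y then sg r g x * sg r' g y else 0 := by
    intro g
    unfold th
    rw [finsum_eq_sum_of_fintype, finsum_eq_sum_of_fintype, Finset.sum_mul_sum]
    refine Finset.sum_congr rfl fun x _ => Finset.sum_congr rfl fun y _ => ?_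
    by_cases hx : gg g x = x <;> by_cases hy : gg g y = y <;> simp [hx, hy]
  rw [Finset.sum_congr rfl fun g _ => e g, Finset.sum_comm]
  refine Finset.sum_congr rfl fun x _ => ?_
  rw [Finset.sum_comm]

/-- orthogonality -/
theorem avg_th_zero [IsGalois k L] {E : K} {E' : K'} (hE : E ≠ 0) (hE' : E' ≠ 0)
    {r : (K →ₐ[k] L) → L} (hr : ∀ x, r x ^ 2 = x E) {r' : (K' →ₐ[k] L) → L}
    (hr' : ∀ x, r' x ^ 2 = x E') (h : ∀ (x : K →ₐ[k] L) (y : K' →ₐ[k] L), ¬ Rel E E' x y) :
    avg (fun g : L ≃ₐ[k] L => th r g * th r' g) = 0 := by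
  have := Fintype.ofFinite (L ≃ₐ[k] L)
  have := Fintype.ofFinite (K →ₐ[k] L)
  have := Fintype.ofFinite (K' →ₐ[k] L)
  rw [avg_th_mul, Finset.sum_eq_zero, zero_div]
  intro x _
  rw [Finset.sum_eq_zero]
  intro y _
  rw [sum_pair hE hE' hr hr', if_neg]
  intro hc
  exact h x y (rel_of_trivial hE' hr hr' hc)

/-- the norm -/
theorem avg_th_sq (hG3 : StG3) [IsGalois k L] {E : K} (hE : E ≠ 0) {r : (K →ₐ[k] L) → L}
    (hr : ∀ x, r x ^ 2 = x E) (x0 : K →ₐ[k] L) (u : ℕ)
    (hu : ∀ x : K →ₐ[k] L, Nat.card {y : K →ₐ[k] L // Rel E E x y} ≤ u) :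
    1 ≤ avg (fun g : L ≃ₐ[k] L => th r g * th r g) ∧
    avg (fun g : L ≃ₐ[k] L => th r g * th r g) ≤ u := by
  have := Fintype.ofFinite (L ≃ₐ[k] L)
  have := Fintype.ofFinite (K →ₐ[k] L)
  have hc := card_pos' (G := L ≃ₐ[k] L)
  -- the sum of the sizes of the stabilizers
  have hb : (∑ x : K →ₐ[k] L, (Nat.card (stab2 x x) : ℝ)) = (Nat.card (L ≃ₐ[k] L) : ℕ) := by
    have h1 := (avg_fxK hG3 x0).1
    rw [avg_eq, div_eq_one_iff_eq hc.ne'] at h1
    rw [← h1]
    have e1 : ∀ x : K →ₐ[k] L, (Nat.card (stab2 x x) : ℝ) =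
        ∑ g : L ≃ₐ[k] L, if gg g x = x then (1 : ℝ) else 0 := by
      intro x
      rw [← Finset.sum_filter, Finset.sum_const, nsmul_eq_mul, mul_one]
      congr 1
      exact Nat.subtype_card _ (fun g => by simp [mem_stab2])
    have e2 : ∀ g : L ≃ₐ[k] L, fxK k K g = ∑ x : K →ₐ[k] L, if gg g x = x then (1 : ℝ) else 0 := by
      intro g
      rw [← Finset.sum_filter, Finset.sum_const, nsmul_eq_mul, mul_one]
      unfold fxK
      congr 1
      refine Nat.subtype_card _ (fun x => ?_)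
      simp only [Finset.mem_filter, Finset.mem_univ, true_and]
      exact ⟨fun h y => DFunLike.congr_fun h y, fun h => AlgHom.ext h⟩
    rw [Finset.sum_congr rfl fun x _ => e1 x, Finset.sum_congr rfl fun g _ => e2 g,
      Finset.sum_comm]
  have hle : ∀ x y : K →ₐ[k] L, (Nat.card (stab2 x y) : ℝ) ≤ Nat.card (stab2 x x) := by
    intro x y
    have h : stab2 x y ≤ stab2 x x := fun g hg => ⟨hg.1, hg.1⟩
    exact_mod_cast Nat.card_le_card_of_injective (Subgroup.inclusion h) (Subgroup.inclusion_injective h)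
  rw [avg_th_mul]
  constructor
  · rw [le_div_iff₀ hc, one_mul, ← hb]
    refine Finset.sum_le_sum fun x _ => ?_
    have h0 : ∀ y : K →ₐ[k] L, 0 ≤ ∑ g : L ≃ₐ[k] L,
        if gg g x = x ∧ gg g y = y then sg r g x * sg r g y else 0 := by
      intro y
      rw [sum_pair hE hE hr hr]
      split_ifs
      · exact Nat.cast_nonneg _
      · exact le_rfl
    refine le_trans (le_of_eq ?_) (Finset.single_le_sum (fun y _ => h0 y) (Finset.mem_univ x))
    rw [sum_pair hE hE hr hr, if_pos]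
    intro g _
    rcases sg_or r g x with h1 | h1 <;> rw [h1] <;> norm_num
  · rw [div_le_iff₀ hc, ← hb, Finset.mul_sum]
    refine Finset.sum_le_sum fun x _ => ?_
    have h1 : ∀ y : K →ₐ[k] L, (∑ g : L ≃ₐ[k] L,
        if gg g x = x ∧ gg g y = y then sg r g x * sg r g y else 0) ≤
        if Rel E E x y then (Nat.card (stab2 x x) : ℝ) else 0 := by
      intro y
      rw [sum_pair hE hE hr hr]
      by_cases hc : ∀ g ∈ stab2 x y, sg r g x * sg r g y = 1
      · rw [if_pos hc, if_pos (rel_of_trivial hE hr hr hc)]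
        exact hle x y
      · rw [if_neg hc]
        split_ifs
        · exact Nat.cast_nonneg _
        · exact le_rfl
    refine (Finset.sum_le_sum fun y _ => h1 y).trans ?_
    rw [← Finset.sum_filter, Finset.sum_const, nsmul_eq_mul]
    refine mul_le_mul_of_nonneg_right ?_ (Nat.cast_nonneg _)
    have h2 := hu x
    rw [Nat.subtype_card (Finset.univ.filter fun y => Rel E E x y) (fun y => by simp)] at h2
    exact_mod_cast h2

/-! ## `th` is constant on divisions -/

theorem sg_conj {E : K} {r : (K →ₐ[k] L) → L} (hr : ∀ x, r x ^ 2 = x E) (h g : L ≃ₐ[k] L)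
    (y : K →ₐ[k] L) : sg r (h * g * h⁻¹) (gg h y) = sg r g y := by
  have h1 : h⁻¹ (r (gg h y)) = r y ∨ h⁻¹ (r (gg h y)) = - r y := by
    apply sq_eq_sq_iff_eq_or_eq_neg.1
    rw [← map_pow, hr, hr, gg_apply]
    exact h.symm_apply_apply _
  have h2 : (h * g * h⁻¹) (r (gg h y)) = r (gg h y) ↔ g (r y) = r y := by
    have e : (h * g * h⁻¹) (r (gg h y)) = h (g (h⁻¹ (r (gg h y)))) := rfl
    have e2 : r (gg h y) = h (h⁻¹ (r (gg h y))) := (h.apply_symm_apply _).symm
    rw [e]
    constructor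
    · intro h3
      have h4 : g (h⁻¹ (r (gg h y))) = h⁻¹ (r (gg h y)) := by
        apply h.injective
        rw [h3]
        exact e2
      rcases h1 with h1 | h1
      · rwa [h1] at h4
      · rw [h1, map_neg, neg_inj] at h4
        exact h4
    · intro h3
      have h4 : g (h⁻¹ (r (gg h y))) = h⁻¹ (r (gg h y)) := by
        rcases h1 with h1 | h1
        · rw [h1, h3]
        · rw [h1, map_neg, h3]
      rw [h4]
      exact e2.symm
  unfold sg
  by_cases h3 : g (r y) = r y
  · rw [if_pos h3, if_pos (h2.2 h3)]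
  · rw [if_neg h3, if_neg (fun h4 => h3 (h2.1 h4))]

theorem gg_pow {g : L ≃ₐ[k] L} {x : K →ₐ[k] L} (h : gg g x = x) (n : ℕ) : gg (g ^ n) x = x := by
  induction n with
  | zero => rfl
  | succ n ih => rw [pow_succ, gg_mul, h, ih]

theorem app_pow {g : L ≃ₐ[k] L} {z : L} (h : g z = z) (n : ℕ) : (g ^ n) z = z := by
  induction n with
  | zero => rfl
  | succ n ih =>
    rw [pow_succ]
    show (g ^ n) (g z) = z
    rw [h, ih]

theorem div_th [IsGalois k L] {E : K} {r : (K →ₐ[k] L) → L} (hr : ∀ x, r x ^ 2 = x E) :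
    Div (fun g : L ≃ₐ[k] L => th r g) := by
  have := Fintype.ofFinite (K →ₐ[k] L)
  intro g h n hn
  show th r (h * g ^ n * h⁻¹) = th r g
  have e1 : th r (h * g ^ n * h⁻¹) = th r (g ^ n) := by
    unfold th
    rw [finsum_eq_sum_of_fintype, finsum_eq_sum_of_fintype]
    let e : (K →ₐ[k] L) ≃ (K →ₐ[k] L) :=
      { toFun := gg h
        invFun := gg h⁻¹
        left_inv := fun y => by rw [← gg_mul, inv_mul_cancel]; rfl
        right_inv := fun y => by rw [← gg_mul, mul_inv_cancel]; rfl }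
    rw [← Equiv.sum_comp e]
    refine Finset.sum_congr rfl fun y _ => ?_
    show (if gg (h * g ^ n * h⁻¹) (gg h y) = gg h y then sg r (h * g ^ n * h⁻¹) (gg h y) else 0) = _
    rw [sg_conj hr]
    have e2 : gg (h * g ^ n * h⁻¹) (gg h y) = gg h (gg (g ^ n) y) := by
      rw [← gg_mul, ← gg_mul, inv_mul_cancel_right]
    rw [e2]
    by_cases h3 : gg (g ^ n) y = y
    · rw [h3, if_pos rfl, if_pos rfl]
    · rw [if_neg h3, if_neg]
      intro h4
      exact h3 (e.injective h4)
  rw [e1]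
  obtain ⟨m, hm⟩ := exists_pow_eq_self_of_coprime hn
  unfold th
  rw [finsum_eq_sum_of_fintype, finsum_eq_sum_of_fintype]
  refine Finset.sum_congr rfl fun y _ => ?_
  have h1 : gg (g ^ n) y = y ↔ gg g y = y :=
    ⟨fun h => by have := gg_pow h m; rwa [hm] at this, fun h => gg_pow h n⟩
  have h2 : (g ^ n) (r y) = r y ↔ g (r y) = r y :=
    ⟨fun h => by have := app_pow h m; rwa [hm] at this, fun h => app_pow h n⟩
  unfold sg
  simp only [h1, h2]

/-- the number of embeddings -/
theorem card_emb [IsGalois k L] (x0 : K →ₐ[k] L) : Nat.card (K →ₐ[k] L) = Module.finrank k K := by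
  have hfd : FiniteDimensional k K := Module.Finite.of_restrictScalars_finite ℚ k K
  refine AlgHom.natCard_of_splits k K L fun x => ?_
  have h1 : minpoly k x = minpoly k (x0 x) :=
    (minpoly.algHom_eq x0 x0.injective x).symm
  rw [h1]
  exact Normal.splits (inferInstance : Normal k L) _

/-- `th` vanishes if no embedding of a Galois subfield is fixed -/
theorem th_supp {M : Type} [Field M] [NumberField M] [Algebra k M] [IsGalois k M] [IsGalois k L]
    (j : M →ₐ[k] K) (r : (K →ₐ[k] L) → L) (g : L ≃ₐ[k] L) :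
    fxK k M g * th r g = Module.finrank k M * th r g := by
  by_cases h : ∃ x : K →ₐ[k] L, gg g x = x
  · obtain ⟨x, hx⟩ := h
    congr 1
    have h1 : ∀ m : M →ₐ[k] L, ∀ a, g (m a) = m a := by
      intro m a
      let F : IntermediateField k L := (x.comp j).fieldRange
      let e : M ≃ₐ[k] F := AlgEquiv.ofInjectiveField (x.comp j)
      have hN : Normal k F := Normal.of_algEquiv e
      let f : F →ₐ[k] L := m.comp (e.symm : F →ₐ[k] M)
      have h2 : f.fieldRange = F := AlgHom.fieldRange_of_normal f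
      have h3 : m a ∈ F := by
        rw [← h2]
        refine ⟨e a, ?_⟩
        show m (e.symm (e a)) = m a
        rw [AlgEquiv.symm_apply_apply]
      obtain ⟨b, hb⟩ := h3
      rw [← hb]
      exact DFunLike.congr_fun hx (j b)
    unfold fxK
    have e : Nat.card {m : M →ₐ[k] L // ∀ y, g (m y) = m y} = Nat.card (M →ₐ[k] L) :=
      Nat.card_congr (Equiv.subtypeUnivEquiv fun m y => h1 m y)
    rw [e, card_emb (x.comp j)]
  · have h0 : th r g = 0 := by
      unfold th
      have : (fun x : K →ₐ[k] L => if gg g x = x then sg r g x else 0) = fun _ => 0 := by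
        funext x
        exact if_neg fun hx => h ⟨x, hx⟩
      rw [this, finsum_zero]
    rw [h0, mul_zero, mul_zero]

theorem abs_th_le [IsGalois k L] (r : (K →ₐ[k] L) → L) (g : L ≃ₐ[k] L) :
    |th r g| ≤ Nat.card (K →ₐ[k] L) := by
  have := Fintype.ofFinite (K →ₐ[k] L)
  unfold th
  rw [finsum_eq_sum_of_fintype]
  refine (Finset.abs_sum_le_sum_abs _ _).trans ?_
  refine (Finset.sum_le_sum (g := fun _ => (1 : ℝ)) fun x _ => ?_).trans ?_
  · split_ifs
    · rcases sg_or r g x with h | h <;> rw [h] <;> norm_num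
    · norm_num
  · simp

end emb

end

end Pool.Agent.Helper72.TX
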