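import Pool.Agent.Helper72.TX.Grp

/-!
# Project TX (MP_6090f9_nt): the local part

The sum of the quadratic characters of `E` at the primes of degree one above `v` is the value of `th` at a Frobenius element.
-/

set_option autoImplicit false

namespace Pool.Agent.Helper72.TX

open Pool.Agent.Helper97.TN Pool.Agent.Helper96.BC Pool.Agent.Helper95.TT Pool.Agent.Helper72.TN
open NumberField IsDedekindDomain Polynomial Filter Topology
open scoped Classical

noncomputable section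

variable {k K L : Type} [Field k] [NumberField k] [Field K] [NumberField K] [Field L]
  [NumberField L] [Algebra k K] [Algebra k L]

variable {v : Pr k} {V : Pr L} {g : L ≃ₐ[k] L}

/-- a square root of an integer is an integer -/
theorem exists_root (E : 𝓞 K) (x : K →ₐ[k] L) (ρ : L) (h : ρ ^ 2 = x (E : K)) :
    ∃ t : 𝓞 L, (t : L) = ρ ∧ t ^ 2 = rr x E := by
  have h1 : IsIntegral ℤ ρ := by
    refine IsIntegral.of_pow two_pos ?_
    rw [h]
    exact RingOfIntegers.isIntegral_coe (rr x E)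
  obtain ⟨t, ht⟩ : ∃ t : 𝓞 L, (t : L) = ρ := ⟨⟨ρ, h1⟩, rfl⟩
  refine ⟨t, ht, ?_⟩
  apply RingOfIntegers.ext
  rw [rr_coe, ← h, ← ht]
  rfl

theorem chi_WW (hV : ∀ a : 𝓞 k, algebraMap (𝓞 k) (𝓞 L) a ∈ V.asIdeal ↔ a ∈ v.asIdeal)
    (hF : ∀ x y : 𝓞 L, g (x : L) = (y : L) → y - x ^ q v ∈ V.asIdeal)
    (E : 𝓞 K) (r : (K →ₐ[k] L) → L) (hr : ∀ x, r x ^ 2 = x (E : K)) (x : K →ₐ[k] L)
    (hx : gg g x = x) (hq : q (WW V x) = q v) (h2 : (2 : 𝓞 L) ∉ V.asIdeal)
    (hE : rr x E ∉ V.asIdeal) : chi E (WW V x) = sg r g x := by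
  have hVp : V.asIdeal.IsPrime := V.isPrime
  obtain ⟨t, ht, ht2⟩ := exists_root E x (r x) (hr x)
  have h0 : ¬ (2 * E ∈ (WW V x).asIdeal) := by
    rw [mem_WW, map_mul, map_ofNat]
    intro h
    rcases hVp.mem_or_mem h with h | h
    · exact h2 h
    · exact hE h
  unfold chi
  rw [if_neg h0]
  have hab : Above V v := by
    unfold Above
    ext a
    rw [Ideal.mem_comap, hV]
  by_cases hg : g (r x) = r x
  · have h1 : t - t ^ q v ∈ V.asIdeal := hF t t (by rw [ht]; exact hg)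
    have h3 : t ^ q v - t ∈ V.asIdeal := by
      have := V.asIdeal.neg_mem h1
      rwa [neg_sub] at this
    obtain ⟨c, hc⟩ := fixed_q v V hab t h3
    rw [if_pos]
    · exact (sg_eq_one.2 hg).symm
    · refine ⟨algebraMap (𝓞 k) (𝓞 K) c, ?_⟩
      rw [mem_WW, map_sub, map_pow, AlgHom.commutes, ← ht2]
      have e : (algebraMap (𝓞 k) (𝓞 L) c) ^ 2 - t ^ 2 =
          (t - algebraMap (𝓞 k) (𝓞 L) c) * (-(algebraMap (𝓞 k) (𝓞 L) c) - t) := by ring
      rw [e]
      exact V.asIdeal.mul_mem_right _ hc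
  · have hg' : g (r x) = - r x := (sq_or hr hx).resolve_left hg
    rw [if_neg]
    · unfold sg
      rw [if_neg hg]
    · rintro ⟨a, ha⟩
      rw [mem_WW, map_sub, map_pow, ← ht2] at ha
      have e : (rr x a) ^ 2 - t ^ 2 = (t - rr x a) * (-(rr x a) - t) := by ring
      rw [e] at ha
      obtain ⟨b, hb⟩ : ∃ b : 𝓞 K, t - rr x b ∈ V.asIdeal := by
        rcases hVp.mem_or_mem ha with h | h
        · exact ⟨a, h⟩
        · refine ⟨-a, ?_⟩
          have := V.asIdeal.neg_mem h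
          rw [map_neg]
          have e2 : -(-(rr x a) - t) = t - -(rr x a) := by ring
          rwa [e2] at this
      have h3 : (rr x b) ^ q v - rr x b ∈ V.asIdeal := by
        have h4 := pow_sub_mem (WW V x) b
        rw [hq, mem_WW, map_sub, map_pow] at h4
        exact h4
      have h4 : t ^ q v - (rr x b) ^ q v ∈ V.asIdeal :=
        V.asIdeal.mem_of_dvd (sub_dvd_pow_sub_pow _ _ _) hb
      have h5 : -t - t ^ q v ∈ V.asIdeal := hF t (-t) (by
        rw [ht, hg', ← ht]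
        rfl)
      have h6 : 2 * t ∈ V.asIdeal := by
        have e3 : 2 * t = -(-t - t ^ q v) + -(t ^ q v - (rr x b) ^ q v) +
            -((rr x b) ^ q v - rr x b) + (t - rr x b) := by ring
        rw [e3]
        exact V.asIdeal.add_mem (V.asIdeal.add_mem (V.asIdeal.add_mem (V.asIdeal.neg_mem h5)
          (V.asIdeal.neg_mem h4)) (V.asIdeal.neg_mem h3)) hb
      rcases hVp.mem_or_mem h6 with h7 | h7
      · exact h2 h7
      · apply hE
        rw [← ht2, sq]
        exact V.asIdeal.mul_mem_right _ h7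

/-- the sum of the quadratic characters at the primes of degree one -/
theorem S1_chi [Algebra K L] [IsScalarTower k K L] [IsGalois k L] (E : 𝓞 K) (hE : E ≠ 0)
    (r : (K →ₐ[k] L) → L) (hr : ∀ x, r x ^ 2 = x (E : K)) :
    ∃ R : Set (Pr k), R.Finite ∧ ∀ v, v ∉ R → ∀ g : L ≃ₐ[k] L, IsFrob v g →
      S1 (chi E) v = th r g := by
  have hfin : Finite (K →ₐ[k] L) := inferInstance
  let : Fintype (K →ₐ[k] L) := Fintype.ofFinite _
  have hz : ∀ p : (K →ₐ[k] L) × (K →ₐ[k] L), ∃ z : 𝓞 K, p.1 ≠ p.2 → rr p.1 z ≠ rr p.2 z := by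
    intro p
    by_cases h : p.1 = p.2
    · exact ⟨0, fun h' => (h' h).elim⟩
    · obtain ⟨z, hz⟩ := exists_sep p.1 p.2 h
      exact ⟨z, fun _ => hz⟩
  choose Z hZ using hz
  set δ : 𝓞 L := ∏ p ∈ (Finset.univ : Finset ((K →ₐ[k] L) × (K →ₐ[k] L))).filter
    (fun p => p.1 ≠ p.2), (rr p.1 (Z p) - rr p.2 (Z p)) with hδ
  have hδ0 : δ ≠ 0 := by
    rw [hδ, Finset.prod_ne_zero_iff]
    intro p hp
    rw [Finset.mem_filter] at hp
    exact sub_ne_zero.mpr (hZ p hp.2)
  set ε : 𝓞 L := ∏ x : K →ₐ[k] L, rr x E with hε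
  have hε0 : ε ≠ 0 := by
    rw [hε, Finset.prod_ne_zero_iff]
    intro x _ h
    apply hE
    have h1 : x (E : K) = 0 := by
      rw [← rr_coe, h]
      rfl
    exact RingOfIntegers.ext ((map_eq_zero x).1 h1)
  have hD0 : δ * (2 * ε) ≠ 0 := mul_ne_zero hδ0 (mul_ne_zero two_ne_zero hε0)
  refine ⟨_, fin_below (k := k) (δ * (2 * ε)) hD0, ?_⟩
  intro v hv g hg
  obtain ⟨V, hV, hF⟩ := hg
  have hVp : V.asIdeal.IsPrime := V.isPrime
  have hDV : δ * (2 * ε) ∉ V.asIdeal := by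
    intro h
    exact hv (Set.mem_biUnion (show V ∈ {V : Pr L | δ * (2 * ε) ∈ V.asIdeal} from h) hV)
  have hδV : δ ∉ V.asIdeal := fun h => hDV (V.asIdeal.mul_mem_right _ h)
  have h2V : (2 : 𝓞 L) ∉ V.asIdeal := fun h =>
    hDV (V.asIdeal.mul_mem_left _ (V.asIdeal.mul_mem_right _ h))
  have hεV : ∀ x : K →ₐ[k] L, rr x E ∉ V.asIdeal := by
    intro x h
    apply hDV
    refine V.asIdeal.mul_mem_left _ (V.asIdeal.mul_mem_left _ ?_)
    obtain ⟨c, hc⟩ : rr x E ∣ ε := by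
      rw [hε]
      exact Finset.dvd_prod_of_mem (fun x : K →ₐ[k] L => rr x E) (Finset.mem_univ x)
    rw [hc]
    exact V.asIdeal.mul_mem_right c h
  have hsep : ∀ x x' : K →ₐ[k] L, (∀ z, ph V x z = ph V x' z) → x = x' := by
    intro x x' h
    by_contra hne
    apply hδV
    have h2 : rr x (Z (x, x')) - rr x' (Z (x, x')) ∈ V.asIdeal := by
      rw [← Ideal.Quotient.eq_zero_iff_mem, map_sub]
      exact sub_eq_zero.mpr (h _)
    have h3 : (rr x (Z (x, x')) - rr x' (Z (x, x'))) ∣ δ := by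
      rw [hδ]
      exact Finset.dvd_prod_of_mem
        (fun p : (K →ₐ[k] L) × (K →ₐ[k] L) => rr p.1 (Z p) - rr p.2 (Z p)) (a := (x, x'))
        (Finset.mem_filter.mpr ⟨Finset.mem_univ _, hne⟩)
    obtain ⟨c, hc⟩ := h3
    rw [hc]
    exact V.asIdeal.mul_mem_right c h2
  -- the bijection
  have hW : ∀ x : K →ₐ[k] L, gg g x = x → Deg1 (WW V x) v := fun x hx =>
    ⟨above_WW hV x, (fix_one hV hF hsep x).1 hx⟩
  have hinj : ∀ x x' : K →ₐ[k] L, gg g x = x → gg g x' = x' → WW V x = WW V x' → x = x' := by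
    intro x x' hx hx' h
    apply hsep
    intro z
    have h1 := (fix_one hV hF hsep x).1 hx
    obtain ⟨c, hc⟩ := fixed_q v (WW V x) (above_WW hV x) z (by
      have := pow_sub_mem (WW V x) z
      rwa [h1] at this)
    have hc' := hc
    rw [h] at hc'
    rw [mem_WW', ph_sub, ph_base, sub_eq_zero] at hc hc'
    rw [hc, hc']
  let f : {x : K →ₐ[k] L // gg g x = x} → {w : Pr K // Deg1 w v} := fun x => ⟨WW V x.1, hW x.1 x.2⟩
  have hf : Function.Bijective f := by
    constructor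
    · intro x x' h
      exact Subtype.ext (hinj x.1 x'.1 x.2 x'.2 (congrArg Subtype.val h))
    · intro w
      obtain ⟨x, hx⟩ := surj_WW (L := L) hV w.1 w.2.1
      refine ⟨⟨x, (fix_one hV hF hsep x).2 ?_⟩, Subtype.ext hx⟩
      rw [hx]
      exact w.2.2
  unfold S1
  rw [← finsum_comp_equiv (Equiv.ofBijective f hf), finsum_eq_sum_of_fintype]
  unfold th
  rw [finsum_eq_sum_of_fintype, ← Finset.sum_filter]
  rw [Finset.sum_subtype (p := fun x : K →ₐ[k] L => gg g x = x)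
    (Finset.univ.filter fun x : K →ₐ[k] L => gg g x = x) (fun x => by simp)]
  refine Finset.sum_congr rfl fun x _ => ?_
  exact chi_WW hV hF E r hr x.1 x.2 (hW x.1 x.2).2 h2V (hεV x.1)

end

end Pool.Agent.Helper72.TX
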